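import Pool.Agent.P8H39.TI.Stm

/-!
# Project TI, part FINL
-/

set_option autoImplicit false
set_option linter.all false

namespace Pool.Agent.P8H59.TI

open Finset
open Pool.Agent.P8H39.TI

theorem k_le {n k t : ℕ} (htk : t ≤ k) (hn : (t + 1) * (k - t + 1) ≤ n) : k ≤ n := by
  obtain ⟨d, rfl⟩ : ∃ d, k = t + d := ⟨k - t, by omega⟩
  rw [Nat.add_sub_cancel_left] at hn
  nlinarith

theorem star_pos {n k t : ℕ} (T : Finset (Fin n)) (hT : T.card = t) (htk : t ≤ k)
    (hn : (t + 1) * (k - t + 1) ≤ n) : 0 < (star k T).card := by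
  have hkn := k_le htk hn
  obtain ⟨A, hTA, -, hA⟩ := Finset.exists_subsuperset_card_eq (n := k) (Finset.subset_univ T)
    (by rw [hT]; exact htk) (by rw [Finset.card_univ, Fintype.card_fin]; exact hkn)
  rw [Finset.card_pos]
  refine ⟨A, ?_⟩
  unfold Pool.Agent.P8H39.TI.star
  rw [Finset.mem_filter, Finset.mem_powersetCard]
  exact ⟨⟨Finset.subset_univ _, hA⟩, hTA⟩

theorem card_le {n k t : ℕ} (hPS : S_PS) (F : Finset (Finset (Fin n))) (T : Finset (Fin n))
    (h1 : 1 ≤ t) (h2 : t < k) (h3 : (t + 1) * (k - t + 1) ≤ n) (h4 : TInt k t F)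
    (h5 : T.card = t) : (F.card : ℝ) ≤ ((star k T).card : ℝ) := by
  obtain ⟨x, z, -, -, hx, hz, -, -, hs⟩ := hPS n k t F T h1 h2 h3 h4 h5
  have h0 := hs 0 (Nat.zero_le k)
  simp only [zero_add, Finset.range_one, Finset.sum_singleton] at h0
  have hkn := k_le h2.le h3
  have hc : (0 : ℝ) < (n.choose k : ℝ) := by exact_mod_cast Nat.choose_pos hkn
  have hS : (0 : ℝ) < ((star k T).card : ℝ) := by exact_mod_cast star_pos T h5 h2.le h3
  rcases Nat.eq_zero_or_pos F.card with hF | hF
  · rw [hF]; push_cast; exact hS.le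
  · have hF' : (0 : ℝ) < (F.card : ℝ) := by exact_mod_cast hF
    have h6 : (F.card : ℝ) ^ 2 * ((star k T).card : ℝ) ≤ (F.card : ℝ) * ((star k T).card : ℝ) ^ 2 := by
      rw [← hx, ← hz]
      calc x 0 * (n.choose k : ℝ) * ((star k T).card : ℝ) =
          (x 0 * ((star k T).card : ℝ)) * (n.choose k : ℝ) := by ring
        _ ≤ ((F.card : ℝ) * z 0) * (n.choose k : ℝ) := by gcongr
        _ = _ := by ring
    have h7 : (F.card : ℝ) * (((F.card : ℝ)) * ((star k T).card : ℝ)) ≤
        ((star k T).card : ℝ) * ((F.card : ℝ) * ((star k T).card : ℝ)) := by nlinarith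
    exact le_of_mul_le_mul_right h7 (mul_pos hF' hS)

theorem deg_single {n : ℕ} (A R : Finset (Fin n)) :
    deg {A} R = if R ⊆ A then 1 else 0 := by
  unfold deg
  rw [Finset.filter_singleton]
  split_ifs <;> simp

theorem ell_single {n : ℕ} (r : ℕ) (p : ℝ) (hp : p ≠ 0) (A : Finset (Fin n)) :
    ell r p {A} = (A.card.choose r : ℝ) := by
  unfold ell
  have h : ∀ R ∈ slice n r, ((deg {A} R : ℕ) : ℝ) ^ p = if R ⊆ A then 1 else 0 := by
    intro R _
    rw [deg_single]
    split_ifs
    · simp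
    · simp [Real.zero_rpow hp]
  rw [Finset.sum_congr rfl h, Finset.sum_boole]
  congr 1
  rw [← Finset.card_powersetCard]
  congr 1
  ext R
  rw [Finset.mem_filter, Finset.mem_powersetCard, Finset.mem_powersetCard]
  exact ⟨fun h => ⟨h.2, h.1.2⟩, fun h => ⟨⟨Finset.subset_univ _, h.2⟩, h.1⟩⟩

theorem ell_empty {n : ℕ} (r : ℕ) (p : ℝ) (hp : p ≠ 0) :
    ell r p (∅ : Finset (Finset (Fin n))) = 0 := by
  unfold ell deg
  simp [Real.zero_rpow hp]

theorem ell_nonneg {n : ℕ} (r : ℕ) (p : ℝ) (F : Finset (Finset (Fin n))) : 0 ≤ ell r p F := by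
  unfold ell
  exact Finset.sum_nonneg fun R _ => Real.rpow_nonneg (Nat.cast_nonneg _) _

theorem star_self {n : ℕ} (T : Finset (Fin n)) : star T.card T = {T} := by
  unfold Pool.Agent.P8H39.TI.star
  ext A
  rw [Finset.mem_filter, Finset.mem_powersetCard, Finset.mem_singleton]
  constructor
  · rintro ⟨⟨-, h1⟩, h2⟩
    exact (Finset.eq_of_subset_of_card_le h2 h1.le).symm
  · rintro rfl
    exact ⟨⟨Finset.subset_univ _, rfl⟩, Finset.Subset.refl _⟩

theorem one_member {n t : ℕ} {F : Finset (Finset (Fin n))} (h : TInt t t F) :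
    F = ∅ ∨ ∃ A, A.card = t ∧ F = {A} := by
  rcases F.eq_empty_or_nonempty with h0 | ⟨A, hA⟩
  · exact Or.inl h0
  · right
    refine ⟨A, h.1 A hA, ?_⟩
    ext B
    rw [Finset.mem_singleton]
    constructor
    · intro hB
      have h1 := h.2 A hA B hB
      have h2 : A ∩ B = A := Finset.eq_of_subset_of_card_le Finset.inter_subset_left
        (by rw [h.1 A hA]; exact h1)
      have h3 : A ∩ B = B := Finset.eq_of_subset_of_card_le Finset.inter_subset_right
        (by rw [h.1 B hB]; exact h1)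
      rw [← h3, h2]
    · rintro rfl
      exact hA

theorem ell_two {n : ℕ} (r : ℕ) (F : Finset (Finset (Fin n))) :
    ell r 2 F = ∑ R ∈ slice n r, (deg F R : ℝ) ^ 2 := by
  unfold ell
  refine Finset.sum_congr rfl fun R _ => ?_
  exact Real.rpow_two _

/-- **FINL** -/
theorem t_FINL (hL : S_LTWO) (hR : S_RONE) (hPS : S_PS) : S_FINL := by
  constructor
  · intro n k t r p F T h1 h2 h3 h4 h5 h6 h7 h8
    have hp : p ≠ 0 := by
      rcases h8 with rfl | ⟨-, h⟩
      · norm_num
      · intro h0; rw [h0] at h; norm_num at h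
    rcases h2.lt_or_eq with h2' | rfl
    · rcases h8 with rfl | ⟨rfl, h8⟩
      · rw [ell_two, ell_two]
        have a1 := hL n k t r F T h1 h2' h5 h6 h7 (by omega)
        have a2 := card_le hPS F T h1 h2' h5 h6 h7
        have a3 : (0 : ℝ) < ((star k T).card : ℝ) := by exact_mod_cast star_pos T h7 h2 h5
        have a4 : 0 ≤ ∑ R ∈ slice n r, (deg (star k T) R : ℝ) ^ 2 :=
          Finset.sum_nonneg fun R _ => by positivity
        have a5 : (∑ R ∈ slice n r, (deg F R : ℝ) ^ 2) * ((star k T).card : ℝ) ≤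
            (∑ R ∈ slice n r, (deg (star k T) R : ℝ) ^ 2) * ((star k T).card : ℝ) := by
          refine a1.trans ?_
          rw [mul_comm (∑ R ∈ slice n r, (deg (star k T) R : ℝ) ^ 2)]
          exact mul_le_mul_of_nonneg_right a2 a4
        exact le_of_mul_le_mul_right a5 a3
      · exact hR n k t p F T h1 h2' h5 h6 h7 h8
    · rcases one_member h6 with rfl | ⟨A, hA, rfl⟩
      · rw [ell_empty r p hp]
        exact ell_nonneg _ _ _
      · rw [← h7, star_self, ell_single r p hp, ell_single r p hp, hA, h7]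
  · intro n k t r F T h1 h2 h3 h4 h5 h6
    rcases h2.lt_or_eq with h2' | rfl
    · rw [ell_two, ell_two]
      exact hL n k t r F T h1 h2' h4 h5 h6 h3
    · rcases one_member h5 with rfl | ⟨A, hA, rfl⟩
      · rw [ell_empty r 2 (by norm_num)]
        simp
      · rw [← h6, star_self, ell_single r 2 (by norm_num), ell_single r 2 (by norm_num), hA, h6]
        simp

end Pool.Agent.P8H59.TI
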