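import Pool.Agent.P8H39.TI.Stm2

/-!
# Project TI, part B1
-/

set_option autoImplicit false
set_option linter.all false

namespace Pool.Agent.P8H59.TI

open Finset
open Pool.Agent.P8H39.TI

/-- orthogonality of binomial coefficients -/
theorem orth (l q : ℕ) : ∑ u ∈ range (l + 1), (-1 : ℝ) ^ (u + q) * (l.choose u : ℝ) * (u.choose q : ℝ) =
    if l = q then 1 else 0 := by
  rcases Nat.lt_or_ge l q with h | h
  · rw [if_neg (by omega)]
    refine Finset.sum_eq_zero fun u hu => ?_
    rw [Finset.mem_range] at hu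
    rw [Nat.choose_eq_zero_of_lt (by omega : u < q)]
    simp
  · obtain ⟨d, rfl⟩ := Nat.exists_eq_add_of_le h
    rw [show q + d + 1 = q + (d + 1) by ring, Finset.sum_range_add]
    have h1 : ∑ u ∈ range q, (-1 : ℝ) ^ (u + q) * ((q + d).choose u : ℝ) * (u.choose q : ℝ) = 0 := by
      refine Finset.sum_eq_zero fun u hu => ?_
      rw [Finset.mem_range] at hu
      rw [Nat.choose_eq_zero_of_lt (by omega : u < q)]
      simp
    rw [h1, zero_add]
    have h2 : ∀ v ∈ range (d + 1), (-1 : ℝ) ^ (q + v + q) * ((q + d).choose (q + v) : ℝ) *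
        ((q + v).choose q : ℝ) = ((q + d).choose q : ℝ) * ((-1 : ℝ) ^ v * (d.choose v : ℝ)) := by
      intro v hv
      rw [Finset.mem_range] at hv
      have h3 := Nat.choose_mul (n := q + d) (k := q + v) (s := q) (by omega)
      rw [Nat.add_sub_cancel_left, Nat.add_sub_cancel_left] at h3
      have h4 : ((q + d).choose (q + v) : ℝ) * ((q + v).choose q : ℝ) =
          ((q + d).choose q : ℝ) * (d.choose v : ℝ) := by exact_mod_cast h3
      have h5 : (-1 : ℝ) ^ (q + v + q) = (-1) ^ v := by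
        rw [show q + v + q = v + 2 * q by ring, pow_add, pow_mul]
        norm_num
      rw [h5, mul_assoc, h4]
      ring
    rw [Finset.sum_congr rfl h2, ← Finset.mul_sum]
    have h6 := Int.alternating_sum_range_choose (n := d)
    have h7 : ∑ v ∈ range (d + 1), (-1 : ℝ) ^ v * (d.choose v : ℝ) = if d = 0 then 1 else 0 := by
      have := congrArg (fun z : ℤ => (z : ℝ)) h6
      push_cast at this
      rw [this]
    rw [h7]
    by_cases hd : d = 0
    · subst hd
      simp
    · rw [if_neg hd, if_neg (by omega), mul_zero]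

theorem lemW (q l : ℕ) : ∑ u ∈ range l, (-1 : ℝ) ^ (u + q) * (u.choose q : ℝ) * (l.choose (u + 1) : ℝ) =
    if q < l then 1 else 0 := by
  induction l with
  | zero => simp
  | succ l ih =>
    have h1 : ∀ u ∈ range (l + 1), (-1 : ℝ) ^ (u + q) * (u.choose q : ℝ) * ((l + 1).choose (u + 1) : ℝ) =
        (-1 : ℝ) ^ (u + q) * (l.choose u : ℝ) * (u.choose q : ℝ) +
        (-1 : ℝ) ^ (u + q) * (u.choose q : ℝ) * (l.choose (u + 1) : ℝ) := by
      intro u _
      rw [Nat.choose_succ_succ]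
      push_cast
      ring
    rw [Finset.sum_congr rfl h1, Finset.sum_add_distrib, orth, Finset.sum_range_succ, ih,
      Nat.choose_eq_zero_of_lt (by omega : l < l + 1)]
    split_ifs <;> first | omega | simp

theorem vand (ν κ l i : ℕ) (hi : i ≤ l) (hl : l + κ ≤ ν) :
    ∑ e ∈ range (l + 1), (l.choose e) * (e.choose i) * ((ν - l).choose (ν - κ - e)) =
      l.choose i * (ν - i).choose κ := by
  obtain ⟨d, rfl⟩ := Nat.exists_eq_add_of_le hi
  rw [show i + d + 1 = i + (d + 1) by ring, Finset.sum_range_add]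
  have h1 : ∑ u ∈ range i, ((i + d).choose u) * (u.choose i) * ((ν - (i + d)).choose (ν - κ - u)) = 0 := by
    refine Finset.sum_eq_zero fun u hu => ?_
    rw [Finset.mem_range] at hu
    rw [Nat.choose_eq_zero_of_lt (by omega : u < i)]
    simp
  rw [h1, zero_add]
  have h2 : ∀ v ∈ range (d + 1), ((i + d).choose (i + v)) * ((i + v).choose i) *
      ((ν - (i + d)).choose (ν - κ - (i + v))) =
      ((i + d).choose i) * ((d.choose v) * ((ν - (i + d)).choose ((ν - κ - i) - v))) := by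
    intro v hv
    rw [Finset.mem_range] at hv
    have h3 := Nat.choose_mul (n := i + d) (k := i + v) (s := i) (by omega)
    rw [Nat.add_sub_cancel_left, Nat.add_sub_cancel_left] at h3
    rw [h3, show ν - κ - (i + v) = (ν - κ - i) - v by omega]
    ring
  rw [Finset.sum_congr rfl h2, ← Finset.mul_sum]
  congr 1
  have h4 := Nat.add_choose_eq d (ν - (i + d)) (ν - κ - i)
  rw [Finset.Nat.sum_antidiagonal_eq_sum_range_succ
    (fun a b => d.choose a * (ν - (i + d)).choose b)] at h4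
  rw [show d + (ν - (i + d)) = ν - i by omega] at h4
  have h5 : (ν - i).choose κ = (ν - i).choose (ν - κ - i) := by
    rw [← Nat.choose_symm (by omega : κ ≤ ν - i)]
    congr 1
    omega
  rw [h5, h4]
  have h6 : range (d + 1) ⊆ range (ν - κ - i).succ := by
    intro a ha
    rw [Finset.mem_range] at ha ⊢
    omega
  refine Finset.sum_subset h6 fun a _ ha => ?_
  rw [Finset.mem_range] at ha
  rw [Nat.choose_eq_zero_of_lt (by omega : d < a)]
  simp

/-- finite differences of `1 / C(M, κ)` -/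
theorem fdiff (κ : ℕ) (hκ : 1 ≤ κ) (a : ℕ) : ∀ M : ℕ, κ + a ≤ M →
    ∑ u ∈ range (a + 1), (-1 : ℝ) ^ u * (a.choose u : ℝ) / ((M - u).choose κ : ℝ) =
      (-1) ^ a * (κ * ((κ + a - 1).factorial : ℝ) * ((M - κ - a).factorial : ℝ) / (M.factorial : ℝ)) := by
  induction a with
  | zero =>
    intro M hM
    have h1 := Nat.choose_mul_factorial_mul_factorial (show κ ≤ M by omega)
    have h2 : ((M.choose κ : ℕ) : ℝ) * (κ.factorial : ℝ) * ((M - κ).factorial : ℝ) = (M.factorial : ℝ) := by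
      exact_mod_cast h1
    have h3 : (κ.factorial : ℝ) = κ * ((κ - 1).factorial : ℝ) := by
      exact_mod_cast (Nat.mul_factorial_pred (by omega)).symm
    have h4 : ((M.choose κ : ℕ) : ℝ) ≠ 0 := by
      exact_mod_cast (Nat.choose_pos (show κ ≤ M by omega)).ne'
    have h5 : (M.factorial : ℝ) ≠ 0 := by exact_mod_cast M.factorial_ne_zero
    simp only [zero_add, Finset.range_one, Finset.sum_singleton, pow_zero, Nat.choose_zero_right,
      Nat.cast_one, one_mul, Nat.sub_zero, add_zero]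
    rw [← h3, div_eq_div_iff h4 h5]
    linarith
  | succ a ih =>
    intro M hM
    have h1 : ∑ u ∈ range (a + 1 + 1), (-1 : ℝ) ^ u * ((a + 1).choose u : ℝ) / ((M - u).choose κ : ℝ) =
        ∑ u ∈ range (a + 1), (-1 : ℝ) ^ u * (a.choose u : ℝ) / ((M - u).choose κ : ℝ) -
        ∑ u ∈ range (a + 1), (-1 : ℝ) ^ u * (a.choose u : ℝ) / ((M - 1 - u).choose κ : ℝ) := by
      rw [Finset.sum_range_succ']
      have h2 : ∀ u ∈ range (a + 1), (-1 : ℝ) ^ (u + 1) * ((a + 1).choose (u + 1) : ℝ) /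
          ((M - (u + 1)).choose κ : ℝ) =
          (-1 : ℝ) ^ (u + 1) * (a.choose (u + 1) : ℝ) / ((M - (u + 1)).choose κ : ℝ) -
          (-1 : ℝ) ^ u * (a.choose u : ℝ) / ((M - 1 - u).choose κ : ℝ) := by
        intro u _
        rw [Nat.choose_succ_succ, show M - 1 - u = M - (u + 1) by omega]
        push_cast
        rw [pow_succ]
        ring
      rw [Finset.sum_congr rfl h2, Finset.sum_sub_distrib]
      have h3 : ∑ u ∈ range (a + 1), (-1 : ℝ) ^ u * (a.choose u : ℝ) / ((M - u).choose κ : ℝ) =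
          ∑ u ∈ range (a + 1), (-1 : ℝ) ^ (u + 1) * (a.choose (u + 1) : ℝ) /
            ((M - (u + 1)).choose κ : ℝ) + 1 / (M.choose κ : ℝ) := by
        have e1 := Finset.sum_range_succ
          (fun u : ℕ => (-1 : ℝ) ^ u * (a.choose u : ℝ) / ((M - u).choose κ : ℝ)) (a + 1)
        have e2 := Finset.sum_range_succ'
          (fun u : ℕ => (-1 : ℝ) ^ u * (a.choose u : ℝ) / ((M - u).choose κ : ℝ)) (a + 1)
        rw [e1] at e2
        simp only [Nat.choose_eq_zero_of_lt (by omega : a < a + 1), Nat.cast_zero, mul_zero,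
          zero_div, add_zero, pow_zero, Nat.choose_zero_right, Nat.cast_one, one_mul,
          Nat.sub_zero] at e2
        exact e2
      rw [h3]
      simp
      ring
    rw [h1, ih M (by omega), ih (M - 1) (by omega)]
    obtain ⟨m, rfl⟩ : ∃ m, M = m + κ + a + 1 := ⟨M - κ - a - 1, by omega⟩
    obtain ⟨c, rfl⟩ : ∃ c, κ = c + 1 := ⟨κ - 1, by omega⟩
    have e1 : m + (c + 1) + a + 1 - (c + 1) - a = m + 1 := by omega
    have e2 : m + (c + 1) + a + 1 - 1 - (c + 1) - a = m := by omega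
    have e3 : m + (c + 1) + a + 1 - (c + 1) - (a + 1) = m := by omega
    have e4 : c + 1 + a - 1 = c + a := by omega
    have e5 : c + 1 + (a + 1) - 1 = c + a + 1 := by omega
    have e6 : m + (c + 1) + a + 1 - 1 = m + c + a + 1 := by omega
    have e7 : m + (c + 1) + a + 1 = m + c + a + 1 + 1 := by omega
    rw [e1, e2, e3, e4, e5, e6, e7, Nat.factorial_succ m, Nat.factorial_succ (c + a),
      Nat.factorial_succ (m + c + a + 1)]
    have h5 : ((m + c + a + 1).factorial : ℝ) ≠ 0 := by exact_mod_cast Nat.factorial_ne_zero _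
    push_cast
    have h6 : ((m : ℝ) + c + a + 1 + 1) ≠ 0 := by positivity
    field_simp
    ring

/-- alternating sums of decreasing terms -/
theorem alt_nonneg (τ : ℕ → ℝ) (m : ℕ) (h0 : ∀ a, a ≤ m → 0 ≤ τ a)
    (hd : ∀ a, a + 1 ≤ m → τ (a + 1) ≤ τ a) :
    0 ≤ ∑ a ∈ range (m + 1), (-1 : ℝ) ^ a * τ a := by
  have key : ∀ i, i ≤ m → (Even i → τ i ≤ ∑ a ∈ range (i + 1), (-1 : ℝ) ^ a * τ a) ∧
      (¬ Even i → 0 ≤ ∑ a ∈ range (i + 1), (-1 : ℝ) ^ a * τ a) := by
    intro i
    induction i with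
    | zero =>
      intro _
      refine ⟨fun _ => by simp, fun h => absurd (by decide) h⟩
    | succ i ih =>
      intro hi
      obtain ⟨j1, j2⟩ := ih (by omega)
      rw [Finset.sum_range_succ]
      refine ⟨fun h => ?_, fun h => ?_⟩
      · have h3 : ¬ Even i := by rwa [Nat.even_add_one] at h
        have h4 := j2 h3
        rw [h.neg_one_pow]
        linarith
      · have h3 : Even i := by rwa [Nat.even_add_one, not_not] at h
        have h4 := j1 h3
        have h5 : (-1 : ℝ) ^ (i + 1) = -1 := by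
          rw [Nat.not_even_iff_odd] at h
          exact h.neg_one_pow
        rw [h5]
        have := hd i hi
        linarith
  obtain ⟨k1, k2⟩ := key m le_rfl
  by_cases h : Even m
  · exact (h0 m le_rfl).trans (k1 h)
  · exact k2 h

/-- the coefficients -/
noncomputable def gg (ν κ q u : ℕ) : ℝ := (-1 : ℝ) ^ (u + q) * (u.choose q : ℝ) / ((ν - 1 - u).choose κ : ℝ)

noncomputable def BB (ν κ q e : ℕ) : ℝ := ∑ u ∈ range e, (e.choose (u + 1) : ℝ) * gg ν κ q u

/-- the differences of `BB` -/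
noncomputable def tau (ν κ q a : ℕ) : ℝ := ((q + a).choose q : ℝ) *
  (κ * ((κ + a - 1).factorial : ℝ) * ((ν - 1 - q - κ - a).factorial : ℝ) /
    ((ν - 1 - q).factorial : ℝ))

theorem BB_succ (ν κ q e : ℕ) : BB ν κ q (e + 1) = BB ν κ q e +
    ∑ u ∈ range (e + 1), (e.choose u : ℝ) * gg ν κ q u := by
  unfold BB
  have h1 : ∀ u ∈ range (e + 1), ((e + 1).choose (u + 1) : ℝ) * gg ν κ q u =
      (e.choose (u + 1) : ℝ) * gg ν κ q u + (e.choose u : ℝ) * gg ν κ q u := by
    intro u _
    rw [Nat.choose_succ_succ]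
    push_cast
    ring
  rw [Finset.sum_congr rfl h1, Finset.sum_add_distrib]
  congr 1
  rw [Finset.sum_range_succ, Nat.choose_eq_zero_of_lt (by omega : e < e + 1)]
  simp

theorem BB_zero (ν κ q e : ℕ) (he : e ≤ q) : BB ν κ q e = 0 := by
  unfold BB gg
  refine Finset.sum_eq_zero fun u hu => ?_
  rw [Finset.mem_range] at hu
  rw [Nat.choose_eq_zero_of_lt (by omega : u < q)]
  simp

theorem diff_tau (ν κ q a : ℕ) (hκ : 1 ≤ κ) (h : κ + a ≤ ν - 1 - q) :
    ∑ u ∈ range (q + a + 1), ((q + a).choose u : ℝ) * gg ν κ q u = (-1) ^ a * tau ν κ q a := by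
  rw [show q + a + 1 = q + (a + 1) by ring, Finset.sum_range_add]
  have h1 : ∑ u ∈ range q, ((q + a).choose u : ℝ) * gg ν κ q u = 0 := by
    refine Finset.sum_eq_zero fun u hu => ?_
    rw [Finset.mem_range] at hu
    unfold gg
    rw [Nat.choose_eq_zero_of_lt (by omega : u < q)]
    simp
  rw [h1, zero_add]
  have h2 : ∀ v ∈ range (a + 1), ((q + a).choose (q + v) : ℝ) * gg ν κ q (q + v) =
      ((q + a).choose q : ℝ) * ((-1 : ℝ) ^ v * (a.choose v : ℝ) / ((ν - 1 - q - v).choose κ : ℝ)) := by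
    intro v hv
    rw [Finset.mem_range] at hv
    have h3 := Nat.choose_mul (n := q + a) (k := q + v) (s := q) (by omega)
    rw [Nat.add_sub_cancel_left, Nat.add_sub_cancel_left] at h3
    have h4 : ((q + a).choose (q + v) : ℝ) * ((q + v).choose q : ℝ) =
        ((q + a).choose q : ℝ) * (a.choose v : ℝ) := by exact_mod_cast h3
    have h5 : (-1 : ℝ) ^ (q + v + q) = (-1) ^ v := by
      rw [show q + v + q = v + 2 * q by ring, pow_add, pow_mul]
      norm_num
    unfold gg
    rw [h5, show ν - 1 - (q + v) = ν - 1 - q - v by omega]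
    have : ((q + a).choose (q + v) : ℝ) * ((-1) ^ v * ((q + v).choose q : ℝ) /
        ((ν - 1 - q - v).choose κ : ℝ)) = (((q + a).choose (q + v) : ℝ) * ((q + v).choose q : ℝ)) *
        ((-1) ^ v / ((ν - 1 - q - v).choose κ : ℝ)) := by ring
    rw [this, h4]
    ring
  rw [Finset.sum_congr rfl h2, ← Finset.mul_sum, fdiff κ hκ a (ν - 1 - q) h]
  unfold tau
  ring

theorem BB_eq (ν κ q a : ℕ) (hκ : 1 ≤ κ) (h : κ + a ≤ ν - 1 - q) :
    BB ν κ q (q + a + 1) = ∑ i ∈ range (a + 1), (-1 : ℝ) ^ i * tau ν κ q i := by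
  induction a with
  | zero =>
    have e := diff_tau ν κ q 0 hκ h
    simp only [add_zero] at e ⊢
    rw [BB_succ, BB_zero ν κ q q le_rfl, e]
    simp
  | succ a ih =>
    rw [show q + (a + 1) + 1 = (q + a + 1) + 1 by ring, BB_succ, ih (by omega),
      Finset.sum_range_succ _ (a + 1)]
    congr 1
    exact diff_tau ν κ q (a + 1) hκ h

theorem key_ineq (κ q a W : ℕ) (hκ : 2 ≤ κ) (hq : q ≤ κ) (hW : (q + a + 2) * κ ≤ W + q + a) :
    (q + a + 1) * (κ + a) ≤ (a + 1) * W := by
  rcases Nat.eq_or_lt_of_le hκ with h | h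
  · subst h
    have h1 : q + a + 4 ≤ W := by omega
    have h2 : (a + 1) * (q + a + 4) ≤ (a + 1) * W := Nat.mul_le_mul_left _ h1
    refine le_trans ?_ h2
    nlinarith
  · obtain ⟨κ', rfl⟩ : ∃ κ', κ = 3 + κ' := ⟨κ - 3, by omega⟩
    rcases Nat.eq_zero_or_pos a with rfl | ha
    · nlinarith
    · obtain ⟨b, rfl⟩ : ∃ b, a = b + 1 := ⟨a - 1, by omega⟩
      have h1 : 2 * q + 2 * b + 8 + κ' * (q + b + 3) ≤ W := by nlinarith
      have h2 := Nat.mul_le_mul_left (b + 1 + 1) h1
      refine le_trans (Nat.le.intro (k := b * q + b ^ 2 + 6 * b + 8 +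
        κ' * (b * q + b ^ 2 + 4 * b + q + 4)) ?_) h2
      ring

theorem tau_le (ν κ q a r : ℕ) (hκ : 2 ≤ κ) (hq : q ≤ κ) (hr : q + a + 2 ≤ r)
    (hν : (r + 1) * κ + 1 ≤ ν) : tau ν κ q (a + 1) ≤ tau ν κ q a := by
  have hν' : (q + a + 3) * κ + 1 ≤ ν :=
    le_trans (Nat.add_le_add_right (Nat.mul_le_mul_right κ (by omega)) 1) hν
  have e0 : (q + a + 3) * κ = (q + a + 2) * κ + κ := by ring
  have e00 : (q + a + 2) * 2 ≤ (q + a + 2) * κ := Nat.mul_le_mul_left _ hκ
  obtain ⟨W, hW⟩ : ∃ W, ν - 1 - q - κ - a = W + 1 := ⟨ν - 1 - q - κ - a - 1, by omega⟩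
  have hW2 : ν - 1 - q - κ - (a + 1) = W := by omega
  have h1 := key_ineq κ q a (W + 1) hκ hq (by omega)
  have h2 : ((q + a + 1) * (κ + a) : ℝ) ≤ (a + 1) * (W + 1) := by exact_mod_cast h1
  have h3 : ((q + a + 1).choose q : ℝ) * (a + 1) = ((q + a).choose q : ℝ) * (q + a + 1) := by
    have h4 := Nat.add_one_mul_choose_eq (q + a) a
    have h5 : (q + a).choose a = (q + a).choose q := by
      rw [← Nat.choose_symm (by omega : a ≤ q + a)]
      congr 1
      omega
    have h6 : (q + a + 1).choose (a + 1) = (q + a + 1).choose q := by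
      rw [← Nat.choose_symm (by omega : a + 1 ≤ q + a + 1)]
      congr 1
      omega
    rw [h5, h6] at h4
    have h7 : ((q : ℝ) + a + 1) * ((q + a).choose q : ℝ) = ((q + a + 1).choose q : ℝ) * (a + 1) := by
      exact_mod_cast h4
    linarith
  unfold tau
  rw [hW, hW2, show q + (a + 1) = q + a + 1 by ring, show κ + (a + 1) - 1 = (κ + a - 1) + 1 by omega,
    Nat.factorial_succ (κ + a - 1), Nat.factorial_succ W, show κ + a - 1 + 1 = κ + a by omega]
  push_cast
  have ha : (0 : ℝ) < (a : ℝ) + 1 := by positivity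
  refine le_of_mul_le_mul_right ?_ ha
  have hX : 0 ≤ ((q + a).choose q : ℝ) * (κ * ((κ + a - 1).factorial : ℝ) * (W.factorial : ℝ) /
      ((ν - 1 - q).factorial : ℝ)) := by positivity
  calc ((q + a + 1).choose q : ℝ) * (κ * (((κ : ℝ) + a) * ((κ + a - 1).factorial : ℝ)) *
        (W.factorial : ℝ) / ((ν - 1 - q).factorial : ℝ)) * ((a : ℝ) + 1) =
      (((q + a + 1).choose q : ℝ) * (a + 1)) * (((κ : ℝ) + a) * (κ * ((κ + a - 1).factorial : ℝ) *
        (W.factorial : ℝ) / ((ν - 1 - q).factorial : ℝ))) := by ring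
    _ = (((q + a).choose q : ℝ) * (κ * ((κ + a - 1).factorial : ℝ) * (W.factorial : ℝ) /
      ((ν - 1 - q).factorial : ℝ))) * ((q + a + 1) * (κ + a)) := by rw [h3]; ring
    _ ≤ (((q + a).choose q : ℝ) * (κ * ((κ + a - 1).factorial : ℝ) * (W.factorial : ℝ) /
      ((ν - 1 - q).factorial : ℝ))) * ((a + 1) * (W + 1)) := mul_le_mul_of_nonneg_left h2 hX
    _ = _ := by ring

/-- **B1** -/
theorem t_B1 : S_B1 := by
  intro ν κ q r hκ hq hν
  have hν2 : r + κ + 1 ≤ ν := by
    have : (r + 1) * κ = r * κ + κ := by ring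
    have : r * 1 ≤ r * κ := Nat.mul_le_mul_left _ (by omega)
    omega
  refine ⟨BB ν κ q, fun e he => BB_zero ν κ q e he, fun e he => ?_, fun l hl => ?_⟩
  · rcases Nat.lt_or_ge q e with h | h
    · obtain ⟨a, rfl⟩ : ∃ a, e = q + a + 1 := ⟨e - q - 1, by omega⟩
      rw [BB_eq ν κ q a (by omega) (by omega)]
      refine alt_nonneg _ a (fun i _ => ?_) (fun i hi => tau_le ν κ q i r hκ hq (by omega) hν)
      unfold tau
      positivity
    · rw [BB_zero ν κ q e h]
  · have h1 : ∀ e ∈ range (l + 1), BB ν κ q e * (l.choose e : ℝ) * ((ν - l).choose (ν - κ - e) : ℝ) =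
        ∑ u ∈ range l, gg ν κ q u * ((l.choose e : ℝ) * (e.choose (u + 1) : ℝ) *
          ((ν - l).choose (ν - κ - e) : ℝ)) := by
      intro e he
      rw [Finset.mem_range] at he
      unfold BB
      have h2 : range e ⊆ range l := by
        intro x hx
        rw [Finset.mem_range] at hx ⊢
        omega
      rw [Finset.sum_subset h2 (fun u _ hu => by
        rw [Finset.mem_range] at hu
        rw [Nat.choose_eq_zero_of_lt (by omega : e < u + 1)]
        simp), Finset.sum_mul, Finset.sum_mul]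
      refine Finset.sum_congr rfl fun u _ => ?_
      ring
    rw [Finset.sum_congr rfl h1, Finset.sum_comm]
    have h3 : ∀ u ∈ range l, ∑ e ∈ range (l + 1), gg ν κ q u * ((l.choose e : ℝ) *
        (e.choose (u + 1) : ℝ) * ((ν - l).choose (ν - κ - e) : ℝ)) =
        (-1 : ℝ) ^ (u + q) * (u.choose q : ℝ) * (l.choose (u + 1) : ℝ) := by
      intro u hu
      rw [Finset.mem_range] at hu
      rw [← Finset.mul_sum]
      have h4 := vand ν κ l (u + 1) (by omega) (by omega)
      have h5 : ∑ e ∈ range (l + 1), ((l.choose e : ℝ) * (e.choose (u + 1) : ℝ) *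
          ((ν - l).choose (ν - κ - e) : ℝ)) = (l.choose (u + 1) : ℝ) * ((ν - 1 - u).choose κ : ℝ) := by
        rw [show ν - 1 - u = ν - (u + 1) by omega]
        exact_mod_cast h4
      rw [h5]
      unfold gg
      have h6 : ((ν - 1 - u).choose κ : ℝ) ≠ 0 := by
        exact_mod_cast (Nat.choose_pos (show κ ≤ ν - 1 - u by omega)).ne'
      field_simp
    rw [Finset.sum_congr rfl h3, lemW]

end Pool.Agent.P8H59.TI
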