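import Pool.Agent.P8H39.TI.Stm2
import Pool.Agent.P8H59.TI.Finl

/-!
# Project TI, part LVL
-/

set_option autoImplicit false
set_option linter.all false

namespace Pool.Agent.P8H59.TI

open Finset
open Pool.Agent.P8H39.TI

theorem two_k_le {n k t : ℕ} (h1 : 1 ≤ t) (h2 : t + 2 ≤ k) (hn : (t + 1) * (k - t + 1) ≤ n) :
    2 * k ≤ n := by
  obtain ⟨d, rfl⟩ : ∃ d, k = t + (d + 2) := ⟨k - t - 2, by omega⟩
  rw [Nat.add_sub_cancel_left] at hn
  obtain ⟨s, rfl⟩ : ∃ s, t = s + 1 := ⟨t - 1, by omega⟩
  nlinarith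

/-- the indicator function -/
noncomputable def ind {n : ℕ} (F : Finset (Finset (Fin n))) (A : Finset (Fin n)) : ℝ :=
  by classical exact if A ∈ F then 1 else 0

theorem sum_ind {n k : ℕ} {F : Finset (Finset (Fin n))} (hF : ∀ A ∈ F, A.card = k)
    (u : Finset (Fin n) → ℝ) : ∑ A ∈ slice n k, u A * ind F A = ∑ A ∈ F, u A := by
  classical
  have hsub : F ⊆ slice n k := fun A hA => by
    rw [Finset.mem_powersetCard]
    exact ⟨Finset.subset_univ _, hF A hA⟩
  have h1 : ∀ A ∈ slice n k, u A * ind F A = if A ∈ F then u A else 0 := by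
    intro A _
    unfold ind
    split_ifs <;> simp
  rw [Finset.sum_congr rfl h1, ← Finset.sum_filter]
  congr 1
  ext A
  rw [Finset.mem_filter]
  exact ⟨fun h => h.2, fun h => ⟨hsub h, h⟩⟩

theorem ind_sq {n : ℕ} (F : Finset (Finset (Fin n))) (A : Finset (Fin n)) :
    ind F A ^ 2 = 1 * ind F A := by
  unfold ind
  split_ifs <;> simp

/-- the data of `S_HB2` for an intersecting family -/
structure Dat {n : ℕ} (k t : ℕ) (F : Finset (Finset (Fin n))) (x : ℕ → ℝ) : Prop where
  nn : ∀ j, 0 ≤ x j
  sum : ∑ j ∈ range (k + 1), x j = F.card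
  zero : x 0 * (n.choose k : ℝ) = (F.card : ℝ) ^ 2
  lam : ∀ r, r ≤ k → ∀ b : ℕ → ℝ,
    ∑ R ∈ slice n r, (∑ A ∈ F, b (R \ A).card) ^ 2 = ∑ j ∈ range (r + 1), lamb n k r b j * x j
  pol : ∀ P : Polynomial ℝ, P.degree < (t : WithBot ℕ) → ∑ j ∈ range (k + 1), ev n k P j * x j = 0

theorem exists_dat (hHB : S_HB2) (hP : S_POL) {n k t : ℕ} {F : Finset (Finset (Fin n))}
    (h1 : 1 ≤ t) (h2 : t + 2 ≤ k) (h3 : (t + 1) * (k - t + 1) ≤ n) (h4 : TInt k t F) :
    ∃ x : ℕ → ℝ, Dat k t F x ∧
      ((∃ g : Finset (Fin n) → ℝ, ∀ A ∈ slice n k, ind F A = dn t g A) →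
        ∀ j, t < j → j ≤ k → x j = 0) := by
  classical
  have h2k := two_k_le h1 h2 h3
  obtain ⟨x, a1, a2, a3, a4, a5, a6⟩ := hHB n k h2k (ind F)
  refine ⟨x, ⟨a1, ?_, ?_, ?_, ?_⟩, a6 t (by omega)⟩
  · rw [a2, Finset.sum_congr rfl (fun A _ => ind_sq F A), sum_ind h4.1 (fun _ => 1)]
    simp
  · rw [a3]
    have : ∑ A ∈ slice n k, ind F A = (F.card : ℝ) := by
      have := sum_ind h4.1 (fun _ => (1 : ℝ))
      simp only [one_mul] at this
      rw [this]
      simp
    rw [this]
  · intro r hr b
    rw [← a4 r hr b]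
    refine Finset.sum_congr rfl fun R _ => ?_
    rw [sum_ind h4.1 (fun A => b (R \ A).card)]
  · refine hP n k t (by omega) h2k x ?_
    intro i hi hik
    rw [← a5 i hik]
    refine Finset.sum_eq_zero fun A _ => Finset.sum_eq_zero fun B _ => ?_
    by_cases hA : A ∈ F
    · by_cases hB : B ∈ F
      · have e1 := h4.2 A hA B hB
        have e2 := Finset.card_sdiff_add_card_inter A B
        rw [h4.1 A hA] at e2
        rw [Nat.choose_eq_zero_of_lt (by omega)]
        simp
      · have : ind F B = 0 := by unfold ind; rw [if_neg hB]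
        rw [this, mul_zero]
    · have : ind F A = 0 := by unfold ind; rw [if_neg hA]
      rw [this, mul_zero, zero_mul]

theorem sumP {n k t i : ℕ} {F : Finset (Finset (Fin n))} {x : ℕ → ℝ} (hx : Dat k t F x)
    {P : Polynomial ℝ} (hP : P.degree < (t : WithBot ℕ)) (hi1 : 1 ≤ i) (hit : i ≤ t) (htk : t ≤ k)
    (hPj : ∀ j, 1 ≤ j → j ≤ t → ev n k P j = if j = i then -1 else 0) :
    0 = ev n k P 0 * x 0 - x i + ∑ j ∈ range (k + 1), (if t < j then ev n k P j * x j else 0) := by
  have h1 := hx.pol P hP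
  have h2 : ∀ j ∈ range (k + 1), ev n k P j * x j = (if j = 0 then ev n k P 0 * x 0 else 0) +
      (if j = i then - x i else 0) + (if t < j then ev n k P j * x j else 0) := by
    intro j _
    rcases Nat.eq_zero_or_pos j with rfl | hj
    · rw [if_pos rfl, if_neg (by omega), if_neg (by omega)]; ring
    · rcases Nat.lt_or_ge t j with h3 | h3
      · rw [if_neg (by omega), if_neg (by omega), if_pos h3]; ring
      · have e1 : (if j = 0 then ev n k P 0 * x 0 else 0) = 0 := if_neg (by omega)
        have e3 : (if t < j then ev n k P j * x j else 0) = 0 := if_neg (by omega)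
        rw [e1, e3, hPj j hj h3]
        split_ifs with h4
        · rw [h4]; ring
        · ring
  rw [Finset.sum_congr rfl h2, Finset.sum_add_distrib, Finset.sum_add_distrib,
    Finset.sum_ite_eq' _ _ _, Finset.sum_ite_eq' _ _ _, if_pos (Finset.mem_range.mpr (by omega)),
    if_pos (Finset.mem_range.mpr (by omega))] at h1
  linarith

theorem sumQ {n k t : ℕ} {F : Finset (Finset (Fin n))} {x : ℕ → ℝ} (hx : Dat k t F x)
    {Q : Polynomial ℝ} (hQ : Q.degree < (t : WithBot ℕ))
    (hQj : ∀ j, 1 ≤ j → j ≤ t → ev n k Q j = -1) :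
    (F.card : ℝ) = (1 + ev n k Q 0) * x 0 +
      ∑ j ∈ range (k + 1), (if t < j then (1 + ev n k Q j) * x j else 0) := by
  have h1 := hx.pol Q hQ
  have h0 := hx.sum
  have h3 : ∑ j ∈ range (k + 1), (1 + ev n k Q j) * x j = F.card := by
    rw [← h0]
    have : ∀ j ∈ range (k + 1), (1 + ev n k Q j) * x j = x j + ev n k Q j * x j := by
      intro j _; ring
    rw [Finset.sum_congr rfl this, Finset.sum_add_distrib, h1, add_zero]
  have h2 : ∀ j ∈ range (k + 1), (1 + ev n k Q j) * x j =
      (if j = 0 then (1 + ev n k Q 0) * x 0 else 0) +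
      (if t < j then (1 + ev n k Q j) * x j else 0) := by
    intro j _
    rcases Nat.eq_zero_or_pos j with rfl | hj
    · rw [if_pos rfl, if_neg (by omega)]; ring
    · rcases Nat.lt_or_ge t j with h3 | h3
      · rw [if_neg (by omega), if_pos h3]; ring
      · rw [hQj j hj h3, if_neg (by omega), if_neg (by omega : ¬ t < j)]
        ring
  rw [← h3, Finset.sum_congr rfl h2, Finset.sum_add_distrib, Finset.sum_ite_eq' _ _ _,
    if_pos (Finset.mem_range.mpr (by omega))]

/-- **LVL** -/
theorem t_LVL (hHB : S_HB2) (hP : S_POL) (hN : S_NUM2) (hPS : S_PS) : S_LVL := by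
  classical
  intro n k t F T h1 h2 h3 h4 h5
  have hle := card_le hPS F T h1 (by omega) h3 h4 h5
  refine ⟨by exact_mod_cast hle, ?_⟩
  obtain ⟨x, hx, -⟩ := exists_dat hHB hP h1 h2 h3 h4
  have hS : TInt k t (star k T) := by
    constructor
    · intro A hA
      unfold Pool.Agent.P8H39.TI.star at hA
      rw [Finset.mem_filter, Finset.mem_powersetCard] at hA
      exact hA.1.2
    · intro A hA B hB
      unfold Pool.Agent.P8H39.TI.star at hA hB
      rw [Finset.mem_filter] at hA hB
      rw [← h5]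
      exact Finset.card_le_card (Finset.subset_inter hA.2 hB.2)
  obtain ⟨z, hz, hz0⟩ := exists_dat hHB hP h1 h2 h3 hS
  have hz0 := hz0 ⟨fun X => if X = T then 1 else 0, by
    intro A hA
    unfold ind dn
    rw [Finset.sum_ite_eq' _ _ _]
    have : A ∈ star k T ↔ T ∈ powersetCard t A := by
      unfold Pool.Agent.P8H39.TI.star
      rw [Finset.mem_filter]
      constructor
      · intro h
        rw [Finset.mem_powersetCard]
        exact ⟨h.2, h5⟩
      · intro h
        rw [Finset.mem_powersetCard] at h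
        exact ⟨hA, h.1⟩
    by_cases h : A ∈ star k T
    · rw [if_pos h, if_pos (this.mp h)]
    · rw [if_neg h, if_neg (fun h' => h (this.mpr h'))]⟩
  refine ⟨x, z, ?_, fun r hr b => hx.lam r (by omega) b, fun r hr b => hz.lam r (by omega) b⟩
  have hD : (0 : ℝ) < ((star k T).card : ℝ) := by exact_mod_cast star_pos T h5 (by omega) h3
  have hC : (0 : ℝ) < (n.choose k : ℝ) := by
    exact_mod_cast Nat.choose_pos (k_le (by omega : t ≤ k) h3)
  have hx0 := hx.zero
  have hzz := hz.zero
  intro i hi
  rcases Nat.eq_zero_or_pos i with rfl | hi1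
  · have h6 : x 0 * (n.choose k : ℝ) ≤ z 0 * (n.choose k : ℝ) := by
      rw [hx0, hzz]
      have : (0 : ℝ) ≤ (F.card : ℝ) := Nat.cast_nonneg _
      nlinarith
    exact le_of_mul_le_mul_right h6 hC
  · obtain ⟨P, Q, p1, p2, p3, p4, p5, p6, p7⟩ := hN n k t i h1 h2 h3 hi1 hi
    have b1 := sumP hx p1 hi1 hi (by omega) p4
    have b2 := sumQ hx p2 p3
    have b3 := sumP hz p1 hi1 hi (by omega) p4
    have b4 := sumQ hz p2 p3
    have c3 : ∑ j ∈ range (k + 1), (if t < j then ev n k P j * z j else 0) = 0 := by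
      refine Finset.sum_eq_zero fun j hj => ?_
      rw [Finset.mem_range] at hj
      split_ifs with h
      · rw [hz0 j h (by omega), mul_zero]
      · rfl
    have c4 : ∑ j ∈ range (k + 1), (if t < j then (1 + ev n k Q j) * z j else 0) = 0 := by
      refine Finset.sum_eq_zero fun j hj => ?_
      rw [Finset.mem_range] at hj
      split_ifs with h
      · rw [hz0 j h (by omega), mul_zero]
      · rfl
    rw [c3] at b3
    rw [c4] at b4
    have c5 : (1 + ev n k Q 0) * ∑ j ∈ range (k + 1), (if t < j then ev n k P j * x j else 0) ≤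
        2 * ev n k P 0 * ∑ j ∈ range (k + 1), (if t < j then (1 + ev n k Q j) * x j else 0) := by
      rw [Finset.mul_sum, Finset.mul_sum]
      refine Finset.sum_le_sum fun j hj => ?_
      rw [Finset.mem_range] at hj
      split_ifs with h
      · have := mul_le_mul_of_nonneg_right (p7 j h (by omega)) (hx.nn j)
        linarith
      · simp
    generalize (∑ j ∈ range (k + 1), (if t < j then ev n k P j * x j else 0)) = U at *
    generalize (∑ j ∈ range (k + 1), (if t < j then (1 + ev n k Q j) * x j else 0)) = V at *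
    generalize ev n k P 0 = p at *
    generalize ev n k Q 0 = q at *
    generalize x 0 = x0 at *
    generalize x i = xi at *
    generalize z 0 = z0 at *
    generalize z i = zi at *
    generalize (F.card : ℝ) = f at *
    generalize ((star k T).card : ℝ) = D at *
    generalize (n.choose k : ℝ) = C at *
    have hq : 0 < 1 + q := by linarith
    have e1 : zi = p * z0 := by linarith
    have e2 : D = (1 + q) * z0 := by linarith
    have hz0pos : 0 < z0 := by
      by_contra hcon
      push Not at hcon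
      have : D ≤ 0 := by rw [e2]; exact mul_nonpos_of_nonneg_of_nonpos hq.le hcon
      linarith
    have e3 : C = (1 + q) ^ 2 * z0 := by
      have : z0 * C = z0 * ((1 + q) ^ 2 * z0) := by rw [hzz, e2]; ring
      exact mul_left_cancel₀ hz0pos.ne' this
    have e4 : 2 * f ≤ (1 + q) * (x0 + z0) := by
      have h7 : 0 ≤ (C * (1 + q)) * ((1 + q) * (x0 + z0) - 2 * f) := by
        have : (C * (1 + q)) * ((1 + q) * (x0 + z0) - 2 * f) = ((1 + q) * f - C) ^ 2 := by
          have e5 : (1 + q) ^ 2 * (x0 * C) = (1 + q) ^ 2 * f ^ 2 := by rw [hx0]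
          have e6 : (1 + q) ^ 2 * z0 * C = C * C := by rw [← e3]
          linear_combination e5 + e6
        rw [this]
        positivity
      have h8 := nonneg_of_mul_nonneg_right h7 (mul_pos hC hq)
      linarith
    have e5 : (1 + q) * xi ≤ (1 + q) * zi := by
      rw [e1]
      have h9 : U = xi - p * x0 := by linarith
      have h10 : V = f - (1 + q) * x0 := by linarith
      rw [h9, h10] at c5
      have h11 := mul_le_mul_of_nonneg_left e4 p5
      nlinarith
    exact le_of_mul_le_mul_left e5 hq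

end Pool.Agent.P8H59.TI
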