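import Pool.Agent.P8H39.TI.Stm2
import Pool.Agent.P8H59.TI.Finl

/-!
# Project TI, part TH
-/

set_option autoImplicit false
set_option linter.all false

namespace Pool.Agent.P8H59.TI

open Finset
open Pool.Agent.P8H39.TI

theorem mem_star {n k : ℕ} {T A : Finset (Fin n)} : A ∈ star k T ↔ A.card = k ∧ T ⊆ A := by
  unfold Pool.Agent.P8H39.TI.star
  rw [Finset.mem_filter, Finset.mem_powersetCard]
  exact ⟨fun h => ⟨h.1.2, h.2⟩, fun h => ⟨⟨Finset.subset_univ _, h.1⟩, h.2⟩⟩

/-- the number of members of the star with a given distance from `R` -/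
theorem count_star {n k t e : ℕ} {T R : Finset (Fin n)} (hT : T.card = t)
    (hkn : k ≤ n) (he : e + k ≤ n) :
    ((star k T).filter (fun A => (R \ A).card = e)).card =
      (R \ T).card.choose e * ((n - t - (R \ T).card).choose (n - t - (k - t) - e) ) ∨ k < t := by
  classical
  by_cases hkt : k < t
  · exact Or.inr hkt
  left
  push Not at hkt
  have hc : ((Tᶜ : Finset (Fin n)) \ R).card = n - t - (R \ T).card := by
    have h1 : (Tᶜ : Finset (Fin n)) \ R = (T ∪ R)ᶜ := by
      ext a; simp only [mem_sdiff, mem_compl, mem_union]; tauto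
    rw [h1, Finset.card_compl, Fintype.card_fin, ← Finset.union_sdiff_self_eq_union,
      Finset.card_union_of_disjoint Finset.disjoint_sdiff, hT, Nat.sub_sub]
  rw [← hc, ← Finset.card_powersetCard, ← Finset.card_powersetCard, ← Finset.card_product]
  have hnk : n - t - (k - t) - e = n - k - e := by omega
  rw [hnk]
  refine Finset.card_nbij' (fun A => (R \ A, Aᶜ \ R)) (fun p => (p.1 ∪ p.2)ᶜ) ?_ ?_ ?_ ?_
  · intro A hA
    rw [Finset.mem_coe, Finset.mem_filter, mem_star] at hA
    obtain ⟨⟨h1, h2⟩, h3⟩ := hA
    rw [Finset.mem_coe, Finset.mem_product, Finset.mem_powersetCard, Finset.mem_powersetCard]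
    refine ⟨⟨Finset.sdiff_subset_sdiff (Finset.Subset.refl _) h2, h3⟩, ?_, ?_⟩
    · intro a ha
      rw [mem_sdiff, mem_compl] at ha ⊢
      exact ⟨fun h => ha.1 (h2 h), ha.2⟩
    · show (Aᶜ \ R).card = n - k - e
      have h4 : Aᶜ \ R = Aᶜ \ (R \ A) := by
        ext a; simp only [mem_sdiff, mem_compl]; tauto
      have h5 : R \ A ⊆ Aᶜ := by
        intro a ha
        rw [mem_sdiff] at ha
        rw [mem_compl]
        exact ha.2
      rw [h4, Finset.card_sdiff_of_subset h5, Finset.card_compl, Fintype.card_fin, h1, h3]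
  · intro p hp
    rw [Finset.mem_coe, Finset.mem_product, Finset.mem_powersetCard, Finset.mem_powersetCard] at hp
    obtain ⟨⟨h1, h2⟩, h3, h4⟩ := hp
    rw [Finset.mem_coe, Finset.mem_filter, mem_star]
    have hdis : Disjoint p.1 p.2 := by
      rw [Finset.disjoint_left]
      intro a ha hb
      have := h1 ha
      have := h3 hb
      simp only [mem_sdiff] at *
      tauto
    refine ⟨⟨?_, ?_⟩, ?_⟩
    · rw [Finset.card_compl, Fintype.card_fin, Finset.card_union_of_disjoint hdis, h2, h4]
      omega
    · intro a ha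
      rw [mem_compl, mem_union]
      rintro (hb | hb)
      · have := h1 hb
        rw [mem_sdiff] at this
        exact this.2 ha
      · have := h3 hb
        rw [mem_sdiff, mem_compl] at this
        exact this.1 ha
    · have : R \ (p.1 ∪ p.2)ᶜ = p.1 := by
        ext a
        simp only [mem_sdiff, mem_compl, mem_union, not_not]
        constructor
        · rintro ⟨ha, hb | hb⟩
          · exact hb
          · have := h3 hb
            rw [mem_sdiff] at this
            exact absurd ha this.2
        · intro ha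
          have := h1 ha
          rw [mem_sdiff] at this
          exact ⟨this.1, Or.inl ha⟩
      rw [this, h2]
  · intro A hA
    rw [Finset.mem_coe, Finset.mem_filter, mem_star] at hA
    ext a
    simp only [mem_compl, mem_union, mem_sdiff]
    tauto
  · intro p hp
    rw [Finset.mem_coe, Finset.mem_product, Finset.mem_powersetCard, Finset.mem_powersetCard] at hp
    obtain ⟨⟨h1, h2⟩, h3, h4⟩ := hp
    apply Prod.ext
    · ext a
      have i1 := @h1 a
      have i3 := @h3 a
      simp only [mem_sdiff, mem_compl, mem_union, not_not] at *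
      tauto
    · ext a
      have i1 := @h1 a
      have i3 := @h3 a
      simp only [mem_sdiff, mem_compl, mem_union, not_not] at *
      tauto

theorem deg_star {n k t : ℕ} {T R : Finset (Fin n)} (hT : T.card = t) (htk : t ≤ k)
    (hkn : k ≤ n) : deg (star k T) R = (n - t - (R \ T).card).choose (n - t - (k - t)) := by
  classical
  have h := (count_star (k := k) (e := 0) (R := R) hT hkn (by omega)).resolve_right (by omega)
  rw [Nat.choose_zero_right, one_mul, Nat.sub_zero] at h
  rw [← h]
  unfold deg
  congr 1
  ext A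
  rw [Finset.mem_filter, Finset.mem_filter, Finset.card_eq_zero, Finset.sdiff_eq_empty_iff_subset]

theorem card_star {n k t : ℕ} {T : Finset (Fin n)} (hT : T.card = t) (htk : t ≤ k)
    (hkn : k ≤ n) : (star k T).card = (n - t).choose (k - t) := by
  classical
  have h := deg_star (k := k) (R := ∅) hT htk hkn
  have h2 : deg (star k T) ∅ = (star k T).card := by
    unfold deg
    rw [Finset.filter_true_of_mem (fun A _ => Finset.empty_subset A)]
  rw [h2] at h
  rw [h, Finset.empty_sdiff, Finset.card_empty, Nat.sub_zero, Nat.choose_symm (by omega)]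

theorem sum_star {n k t r : ℕ} {T R : Finset (Fin n)} (hT : T.card = t) (htk : t ≤ k)
    (hR : R.card = r) (hrk : r + k ≤ n) (b : ℕ → ℝ) :
    ∑ A ∈ star k T, b (R \ A).card = ∑ e ∈ range ((R \ T).card + 1),
      b e * ((R \ T).card.choose e : ℝ) *
        ((n - t - (R \ T).card).choose (n - t - (k - t) - e) : ℝ) := by
  classical
  have hl : (R \ T).card ≤ r := by rw [← hR]; exact Finset.card_le_card Finset.sdiff_subset
  rw [← Finset.sum_fiberwise_of_maps_to (s := star k T) (t := range ((R \ T).card + 1))
    (g := fun A => (R \ A).card)]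
  · refine Finset.sum_congr rfl fun e he => ?_
    rw [Finset.mem_range] at he
    have h1 : ∀ A ∈ (star k T).filter (fun A => (R \ A).card = e), b (R \ A).card = b e := by
      intro A hA
      rw [Finset.mem_filter] at hA
      rw [hA.2]
    have h2 := (count_star (k := k) (e := e) (R := R) hT (by omega) (by omega)).resolve_right
      (by omega)
    rw [Finset.sum_congr rfl h1, Finset.sum_const, h2, nsmul_eq_mul]
    push_cast
    ring
  · intro A hA
    rw [mem_star] at hA
    rw [Finset.mem_range]
    have := Finset.card_le_card (Finset.sdiff_subset_sdiff (Finset.Subset.refl R) hA.2)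
    omega

theorem lamb_nonneg (n k r : ℕ) (b : ℕ → ℝ) (j : ℕ) : 0 ≤ lamb n k r b j := by
  unfold lamb
  positivity

/-- **TH** -/
theorem t_TH (hL : S_LVL) (hB : S_BPOS) : S_TH := by
  classical
  intro n k t r c F T h1 h2 h3 h4 h5 h6 h7
  have hkn : k ≤ n := k_le (by omega : t ≤ k) h4
  obtain ⟨hFS, x, z, hxz, hx, hz⟩ := hL n k t F T h1 h2 h4 h5 h6
  have hDpos : 0 < (star k T).card := star_pos T h6 (by omega) h4
  have hcard := card_star (k := k) h6 (by omega) hkn
  have hDR : (0 : ℝ) < ((star k T).card : ℝ) := by exact_mod_cast hDpos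
  have hFD : (F.card : ℝ) ≤ ((star k T).card : ℝ) := by exact_mod_cast hFS
  have hdF : ∀ R, (deg F R : ℝ) ≤ (F.card : ℝ) := by
    intro R
    unfold deg
    exact_mod_cast Finset.card_le_card (Finset.filter_subset _ _)
  rcases lt_or_ge ((star k T).card : ℝ) c with hc | hc
  · have e1 : ∀ R ∈ slice n r, (max ((deg F R : ℝ) - c) 0) ^ 2 = 0 := by
      intro R _
      rw [max_eq_right (by linarith [hdF R])]
      norm_num
    rw [Finset.sum_congr rfl e1, Finset.sum_const_zero]
    exact Finset.sum_nonneg fun R _ => by positivity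
  · have hrk : (r + 1) * (k - t) + 1 ≤ n - t := by
      obtain ⟨d, rfl⟩ : ∃ d, k = t + d := ⟨k - t, by omega⟩
      rw [Nat.add_sub_cancel_left] at h4 ⊢
      have : (r + 1) * d ≤ (t + 1) * d := Nat.mul_le_mul_right _ (by omega)
      have h8 : (t + 1) * (d + 1) = (t + 1) * d + (t + 1) := by ring
      omega
    have hrk2 : r + k ≤ n := by
      obtain ⟨d, rfl⟩ : ∃ d, k = t + d := ⟨k - t, by omega⟩
      rw [Nat.add_sub_cancel_left] at hrk
      have : r * 1 ≤ r * d := Nat.mul_le_mul_left _ (by omega)
      have h8 : (r + 1) * d = r * d + d := by ring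
      omega
    obtain ⟨b, b1, b2, b3⟩ := hB (n - t) (k - t) r c (by omega) hrk h7 (by
      rw [← hcard]; exact hc)
    set D : ℝ := ((star k T).card : ℝ) with hD
    obtain ⟨b', hb'⟩ : ∃ b' : ℕ → ℝ, b' = fun e => b e - c / D := ⟨_, rfl⟩
    have key1 : ∑ R ∈ slice n r, (max ((deg F R : ℝ) - c) 0) ^ 2 ≤
        ∑ R ∈ slice n r, (∑ A ∈ F, b' (R \ A).card) ^ 2 := by
      refine Finset.sum_le_sum fun R _ => ?_
      have e1 : (deg F R : ℝ) - c ≤ ∑ A ∈ F, b' (R \ A).card := by
        simp only [hb', Finset.sum_sub_distrib, Finset.sum_const, nsmul_eq_mul]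
        have e2 : (deg F R : ℝ) ≤ ∑ A ∈ F, b (R \ A).card := by
          unfold deg
          have : ((F.filter (fun A => R ⊆ A)).card : ℝ) =
              ∑ A ∈ F.filter (fun A => R ⊆ A), b (R \ A).card := by
            rw [Finset.sum_congr rfl (g := fun _ => (1 : ℝ))]
            · simp
            · intro A hA
              rw [Finset.mem_filter] at hA
              rw [Finset.sdiff_eq_empty_iff_subset.mpr hA.2, Finset.card_empty, b1]
          rw [this]
          exact Finset.sum_le_sum_of_subset_of_nonneg (Finset.filter_subset _ _)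
            (fun A _ _ => b2 _)
        have e3 : (F.card : ℝ) * (c / D) ≤ c := by
          rw [mul_div_assoc', div_le_iff₀ hDR]
          have := mul_le_mul_of_nonneg_right hFD h7
          linarith
        linarith
      rcases le_total 0 ((deg F R : ℝ) - c) with e4 | e4
      · rw [max_eq_left e4]
        exact pow_le_pow_left₀ e4 e1 2
      · rw [max_eq_right e4]
        calc (0 : ℝ) ^ 2 = 0 := by norm_num
          _ ≤ _ := sq_nonneg _
    have key2 : ∑ R ∈ slice n r, (∑ A ∈ F, b' (R \ A).card) ^ 2 ≤
        ∑ R ∈ slice n r, (∑ A ∈ star k T, b' (R \ A).card) ^ 2 := by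
      rw [hx r h3, hz r h3]
      refine Finset.sum_le_sum fun j hj => ?_
      rw [Finset.mem_range] at hj
      exact mul_le_mul_of_nonneg_left (hxz j (by omega)) (lamb_nonneg _ _ _ _ _)
    refine key1.trans (key2.trans (Finset.sum_le_sum fun R hR => le_of_eq ?_))
    rw [Finset.mem_powersetCard] at hR
    have hl : (R \ T).card ≤ r := by rw [← hR.2]; exact Finset.card_le_card Finset.sdiff_subset
    simp only [hb', Finset.sum_sub_distrib, Finset.sum_const, nsmul_eq_mul]
    rw [sum_star h6 (by omega) hR.2 hrk2, b3 _ hl, deg_star h6 (by omega) hkn, ← hD,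
      mul_div_cancel₀ _ hDR.ne']
    congr 1
    rcases le_total c (((n - t - (R \ T).card).choose (n - t - (k - t)) : ℕ) : ℝ) with e5 | e5
    · rw [max_eq_left e5, max_eq_left (by linarith)]
    · rw [max_eq_right e5, max_eq_right (by linarith)]
      ring

end Pool.Agent.P8H59.TI
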